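import Pool.Agent.H74.OLP.Targets2

/-!
# Row CLS of olp_modules: small cuts
-/

set_option autoImplicit false
set_option linter.unusedSectionVars false
open scoped Classical
open Finset

namespace Pool.Agent.H68.OLP

open Pool.Agent.H74.OLP

theorem pf_CLS (h1 : T_CSZ) : T_CLS := by
  intro V E F _ _ _ M hM hPar hFive W hW
  have hsmall : ∀ W : Finset V, W.card ≤ 2 → (M.cut W).card ≤ 4 → M.cut W = ∅ ∨
      (∃ v, ∀ e, e ∈ M.cut W ↔ M.OnV e v) ∨
      ∃ e₀, ∀ e, e ∈ M.cut W ↔ (e ≠ e₀ ∧ (M.OnV e (M.s e₀) ∨ M.OnV e (M.t e₀))) := by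
    intro W h hc
    obtain ⟨-, h0, h2, h3⟩ := h1 V E F M hM hPar W
    obtain hw | hw | hw : W.card = 0 ∨ W.card = 1 ∨ W.card = 2 := by omega
    · exact Or.inl (h0 hw)
    · exact Or.inr (Or.inl (h2 hw))
    · exact Or.inr (Or.inr (h3 hw hc))
  by_cases h : W.card ≤ 2
  · exact hsmall W h hW
  · by_cases h' : Wᶜ.card ≤ 2
    · obtain ⟨hcc, -⟩ := h1 V E F M hM hPar W
      rw [← hcc] at hW ⊢
      exact hsmall Wᶜ h' hW
    · have := hFive W (by omega) (by omega)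
      omega

end Pool.Agent.H68.OLP
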